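import Pool.Agent.H295R2.SI.Defs

/-! T05 of h295d: smoothed Mertens type sum against a general `R` (adaptation of `H370R2.NT`). -/

open Finset MeasureTheory

namespace H627SI

open H370 H295SI

theorem t5_cont {R : ℝ → ℝ} (hR : Conv R) : Continuous R := by
  obtain ⟨K, hK, h⟩ := hR.lip
  exact (LipschitzWith.of_dist_le_mul (K := ⟨K, hK.le⟩) (fun x y => by
    rw [Real.dist_eq, Real.dist_eq]; exact h x y)).continuous

theorem t5_le {R : ℝ → ℝ} (hR : Conv R) (α : ℝ) (h : 0 ≤ α) : R α ≤ R 0 :=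
  hR.anti (Set.mem_Ici.2 le_rfl) (Set.mem_Ici.2 h) h

theorem t5_In_bound {R : ℝ → ℝ} (hR : Conv R) (K : ℝ) (hK : 0 < K) (hlip : ∀ x y, |R x - R y| ≤ K * |x - y|)
    (Λ ℓ : ℝ) (hΛ : 0 < Λ) :
    ∫ u in (0 : ℝ)..Λ, R (u / Λ) * Real.exp (-(u - ℓ) ^ 2) ≤
      Real.sqrt Real.pi * R (ℓ / Λ) + K / Λ * ntG := by
  have hi0 : Integrable (fun u : ℝ => Real.exp (-(u - ℓ) ^ 2)) := nt_int0.comp_sub_right ℓ
  have hi1 : Integrable (fun u : ℝ => |u - ℓ| * Real.exp (-(u - ℓ) ^ 2)) :=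
    nt_int1.comp_sub_right ℓ
  have hi : Integrable (fun u : ℝ => R (ℓ / Λ) * Real.exp (-(u - ℓ) ^ 2) +
      K / Λ * (|u - ℓ| * Real.exp (-(u - ℓ) ^ 2))) := (hi0.const_mul _).add (hi1.const_mul _)
  have hcont : Continuous (fun u : ℝ => R (u / Λ) * Real.exp (-(u - ℓ) ^ 2)) :=
    ((t5_cont hR).comp (continuous_id.div_const Λ)).mul (by fun_prop)
  calc ∫ u in (0 : ℝ)..Λ, R (u / Λ) * Real.exp (-(u - ℓ) ^ 2)
      ≤ ∫ u in (0 : ℝ)..Λ, (R (ℓ / Λ) * Real.exp (-(u - ℓ) ^ 2) +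
          K / Λ * (|u - ℓ| * Real.exp (-(u - ℓ) ^ 2))) := by
        apply intervalIntegral.integral_mono_on hΛ.le (hcont.intervalIntegrable _ _)
          hi.intervalIntegrable
        intro u _
        have h1 := (le_abs_self _).trans (hlip (u / Λ) (ℓ / Λ))
        have h2 : |u / Λ - ℓ / Λ| = |u - ℓ| / Λ := by
          rw [← sub_div, abs_div, abs_of_pos hΛ]
        rw [h2] at h1
        have h3 : R (u / Λ) ≤ R (ℓ / Λ) + K / Λ * |u - ℓ| := by
          have : K * (|u - ℓ| / Λ) = K / Λ * |u - ℓ| := by ring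
          linarith
        calc R (u / Λ) * Real.exp (-(u - ℓ) ^ 2)
            ≤ (R (ℓ / Λ) + K / Λ * |u - ℓ|) * Real.exp (-(u - ℓ) ^ 2) :=
              mul_le_mul_of_nonneg_right h3 (Real.exp_pos _).le
          _ = _ := by ring
    _ = ∫ u in Set.Ioc (0 : ℝ) Λ, (R (ℓ / Λ) * Real.exp (-(u - ℓ) ^ 2) +
          K / Λ * (|u - ℓ| * Real.exp (-(u - ℓ) ^ 2))) := intervalIntegral.integral_of_le hΛ.le
    _ ≤ ∫ u : ℝ, (R (ℓ / Λ) * Real.exp (-(u - ℓ) ^ 2) +
          K / Λ * (|u - ℓ| * Real.exp (-(u - ℓ) ^ 2))) := by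
        apply setIntegral_le_integral hi
        refine Filter.Eventually.of_forall fun u => ?_
        have := hR.nonneg (ℓ / Λ)
        positivity
    _ = R (ℓ / Λ) * (∫ u : ℝ, Real.exp (-(u - ℓ) ^ 2)) +
          K / Λ * ∫ u : ℝ, |u - ℓ| * Real.exp (-(u - ℓ) ^ 2) := by
        rw [integral_add (hi0.const_mul _) (hi1.const_mul _), integral_const_mul,
          integral_const_mul]
    _ = Real.sqrt Real.pi * R (ℓ / Λ) + K / Λ * ntG := by
        rw [integral_sub_right_eq_self (fun v : ℝ => Real.exp (-v ^ 2)) ℓ,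
          integral_sub_right_eq_self (fun v : ℝ => |v| * Real.exp (-v ^ 2)) ℓ, nt_gauss, ntG]
        ring

theorem t5_In_tail {R : ℝ → ℝ} (hR : Conv R) (Λ ℓ : ℝ) (hΛ : 0 < Λ) (hℓ : 2 * Λ ≤ ℓ) :
    ∫ u in (0 : ℝ)..Λ, R (u / Λ) * Real.exp (-(u - ℓ) ^ 2) ≤
      R 0 * Λ * Real.exp (-ℓ ^ 2 / 8) := by
  have hcont : Continuous (fun u : ℝ => R (u / Λ) * Real.exp (-(u - ℓ) ^ 2)) :=
    ((t5_cont hR).comp (continuous_id.div_const Λ)).mul (by fun_prop)
  calc ∫ u in (0 : ℝ)..Λ, R (u / Λ) * Real.exp (-(u - ℓ) ^ 2)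
      ≤ ∫ u in (0 : ℝ)..Λ, R 0 * Real.exp (-ℓ ^ 2 / 8) := by
        apply intervalIntegral.integral_mono_on hΛ.le (hcont.intervalIntegrable _ _)
          (continuous_const.intervalIntegrable _ _)
        intro u hu
        have h1 : R (u / Λ) ≤ R 0 := t5_le hR _ (div_nonneg hu.1 hΛ.le)
        have h2 : Real.exp (-(u - ℓ) ^ 2) ≤ Real.exp (-ℓ ^ 2 / 8) := by
          apply Real.exp_le_exp.2
          have h3 : u ≤ ℓ / 2 := by linarith [hu.2]
          have h4 : ℓ / 2 ≤ ℓ - u := by linarith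
          have h5 : 0 ≤ ℓ / 2 := by linarith
          have h6 := mul_self_le_mul_self h5 h4
          nlinarith
        exact mul_le_mul h1 h2 (Real.exp_pos _).le (hR.nonneg 0)
    _ = R 0 * Λ * Real.exp (-ℓ ^ 2 / 8) := by
        rw [intervalIntegral.integral_const, smul_eq_mul]; ring

theorem t5_int_bound {R : ℝ → ℝ} (hR : Conv R) (Λ : ℝ) (hΛ : 0 < Λ) (C : ℝ) (N : ℕ) (hN : 1 ≤ N)
    (hN2 : Real.log N ≤ 2 * Λ) (hC : 0 ≤ C) :
    ∫ s in (0 : ℝ)..(Real.log N), R (s / Λ) * (s + C) ≤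
      Λ ^ 2 * (∫ α in (0 : ℝ)..1, α * R α) + C * Λ * R 0 := by
  have hcont : Continuous (fun s : ℝ => R (s / Λ) * (s + C)) :=
    ((t5_cont hR).comp (continuous_id.div_const Λ)).mul (by fun_prop)
  have hlog0 : 0 ≤ Real.log N := Real.log_nonneg (by exact_mod_cast hN)
  have h1 : ∫ s in (0 : ℝ)..(Real.log N), R (s / Λ) * (s + C) ≤
      ∫ s in (0 : ℝ)..(2 * Λ), R (s / Λ) * (s + C) := by
    rw [← intervalIntegral.integral_add_adjacent_intervals
      (hcont.intervalIntegrable 0 (Real.log N)) (hcont.intervalIntegrable (Real.log N) (2 * Λ))]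
    have : 0 ≤ ∫ s in (Real.log N)..(2 * Λ), R (s / Λ) * (s + C) := by
      apply intervalIntegral.integral_nonneg hN2
      intro s hs
      exact mul_nonneg (hR.nonneg _) (by linarith [hs.1])
    linarith
  refine h1.trans ?_
  have h2 : ∫ s in (0 : ℝ)..(2 * Λ), R (s / Λ) * (s + C) =
      Λ * ∫ α in (0 : ℝ)..2, R α * (Λ * α + C) := by
    have h3 := intervalIntegral.integral_comp_div (a := 0) (b := 2 * Λ)
      (fun α : ℝ => R α * (Λ * α + C)) hΛ.ne'
    rw [zero_div, mul_div_assoc, div_self hΛ.ne', mul_one, smul_eq_mul] at h3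
    rw [← h3]
    refine intervalIntegral.integral_congr fun s _ => ?_
    show R (s / Λ) * (s + C) = R (s / Λ) * (Λ * (s / Λ) + C)
    rw [mul_div_cancel₀ _ hΛ.ne']
  rw [h2]
  have hc2 : Continuous (fun α : ℝ => R α * (Λ * α + C)) := (t5_cont hR).mul (by fun_prop)
  have h4 : ∫ α in (1 : ℝ)..2, R α * (Λ * α + C) = 0 := by
    rw [intervalIntegral.integral_of_le (by norm_num)]
    rw [setIntegral_congr_fun (g := fun _ => (0 : ℝ)) measurableSet_Ioc]
    · simp
    · intro α hα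
      simp only
      rw [hR.zero α hα.1, zero_mul]
  have h5 : ∫ α in (0 : ℝ)..2, R α * (Λ * α + C) = ∫ α in (0 : ℝ)..1, R α * (Λ * α + C) := by
    rw [← intervalIntegral.integral_add_adjacent_intervals
      (hc2.intervalIntegrable 0 1) (hc2.intervalIntegrable 1 2), h4, add_zero]
  have hca : Continuous (fun α : ℝ => α * R α) := continuous_id.mul (t5_cont hR)
  have hc3 : Continuous (fun α : ℝ => Λ * (α * R α)) := continuous_const.mul hca
  have hc4 : Continuous (fun α : ℝ => Λ * (α * R α) + C * R 0) := hc3.add continuous_const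
  have h6 : ∫ α in (0 : ℝ)..1, R α * (Λ * α + C) ≤
      ∫ α in (0 : ℝ)..1, (Λ * (α * R α) + C * R 0) := by
    apply intervalIntegral.integral_mono_on (by norm_num) (hc2.intervalIntegrable _ _)
      (hc4.intervalIntegrable _ _)
    intro α hα
    have := mul_le_mul_of_nonneg_left (t5_le hR α hα.1) hC
    nlinarith
  have h7 : ∫ α in (0 : ℝ)..1, (Λ * (α * R α) + C * R 0) =
      Λ * (∫ α in (0 : ℝ)..1, α * R α) + C * R 0 := by
    rw [intervalIntegral.integral_add (f := fun α : ℝ => Λ * (α * R α))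
      (g := fun _ : ℝ => C * R 0) (hc3.intervalIntegrable _ _)
      (continuous_const.intervalIntegrable _ _), intervalIntegral.integral_const_mul,
      intervalIntegral.integral_const]
    simp
  rw [h5]
  rw [h7] at h6
  calc Λ * ∫ α in (0 : ℝ)..1, R α * (Λ * α + C)
      ≤ Λ * (Λ * (∫ α in (0 : ℝ)..1, α * R α) + C * R 0) := mul_le_mul_of_nonneg_left h6 hΛ.le
    _ = _ := by ring

/-- T05: the Mertens type sum against a general `R` -/
theorem lamSmooth : LamSmooth := by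
  intro R hR
  obtain ⟨K, hK, hlip⟩ := hR.lip
  unfold VV
  set w : ℕ → ℝ := fun n => (ArithmeticFunction.vonMangoldt n) ^ 2 / n with hw
  have hw0 : ∀ n, 0 ≤ w n := fun n => by simp only [hw]; positivity
  have hsm : Summable (fun n : ℕ => w n * Real.exp (-(Real.log n) ^ 2 / 8)) := nt_summable
  set C2 : ℝ := ∑' n : ℕ, w n * Real.exp (-(Real.log n) ^ 2 / 8) with hC2
  have hC20 : 0 ≤ C2 := tsum_nonneg fun n => mul_nonneg (hw0 n) (Real.exp_pos _).le
  have hR0 : 0 ≤ R 0 := hR.nonneg 0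
  have hG0 := nt_G_nonneg
  have hpi0 : 0 ≤ Real.sqrt Real.pi := Real.sqrt_nonneg _
  refine ⟨16 * Real.sqrt Real.pi * R 0 + 26 * K * ntG + R 0 * C2 + 1, by positivity,
    fun Λ hΛ => ?_⟩
  have hΛ0 : 0 < Λ := by linarith
  -- interchange
  have hsum : HasSum (fun n : ℕ => ∫ u in (0 : ℝ)..Λ, R (u / Λ) *
      (w n * Real.exp (-(u - Real.log n) ^ 2)))
      (∫ u in (0 : ℝ)..Λ, R (u / Λ) * ∑' n : ℕ, w n * Real.exp (-(u - Real.log n) ^ 2)) := by
    apply intervalIntegral.hasSum_integral_of_dominated_convergence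
      (bound := fun n _ => R 0 * Real.exp (Λ ^ 2) * (w n * Real.exp (-(Real.log n) ^ 2 / 8)))
    · intro n
      apply Continuous.aestronglyMeasurable
      exact ((t5_cont hR).comp (continuous_id.div_const Λ)).mul (by fun_prop)
    · intro n
      refine Filter.Eventually.of_forall fun u hu => ?_
      rw [Set.uIoc_of_le hΛ0.le] at hu
      have h1 : R (u / Λ) ≤ R 0 := t5_le hR _ (div_nonneg hu.1.le hΛ0.le)
      have h2 := nt_exp_le Λ u (Real.log n) hu.1.le hu.2
      rw [Real.norm_of_nonneg (mul_nonneg (hR.nonneg _) (mul_nonneg (hw0 n) (Real.exp_pos _).le))]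
      calc R (u / Λ) * (w n * Real.exp (-(u - Real.log n) ^ 2))
          ≤ R 0 * (w n * (Real.exp (Λ ^ 2) * Real.exp (-(Real.log n) ^ 2 / 8))) := by
            apply mul_le_mul h1 (mul_le_mul_of_nonneg_left h2 (hw0 n))
              (mul_nonneg (hw0 n) (Real.exp_pos _).le) hR0
        _ = _ := by ring
    · exact Filter.Eventually.of_forall fun u _ => hsm.mul_left _
    · exact continuous_const.intervalIntegrable _ _
    · refine Filter.Eventually.of_forall fun u hu => ?_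
      rw [Set.uIoc_of_le hΛ0.le] at hu
      apply HasSum.mul_left
      apply Summable.hasSum
      refine Summable.of_nonneg_of_le (fun n => mul_nonneg (hw0 n) (Real.exp_pos _).le)
        (fun n => ?_) (hsm.mul_left (Real.exp (Λ ^ 2)))
      have h2 := nt_exp_le Λ u (Real.log n) hu.1.le hu.2
      calc w n * Real.exp (-(u - Real.log n) ^ 2)
          ≤ w n * (Real.exp (Λ ^ 2) * Real.exp (-(Real.log n) ^ 2 / 8)) :=
            mul_le_mul_of_nonneg_left h2 (hw0 n)
        _ = _ := by ring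
  set N : ℕ := ⌊Real.exp (2 * Λ)⌋₊ with hNdef
  have hN : 1 ≤ N := by
    rw [hNdef, Nat.one_le_floor_iff]
    exact Real.one_le_exp (by linarith)
  have hNlog : Real.log N ≤ 2 * Λ := by
    rw [Real.log_le_iff_le_exp (by exact_mod_cast hN)]
    exact Nat.floor_le (Real.exp_pos _).le
  -- termwise bound
  have hterm : ∀ n : ℕ, ∫ u in (0 : ℝ)..Λ, R (u / Λ) *
      (w n * Real.exp (-(u - Real.log n) ^ 2)) ≤
      (if n ∈ Finset.Icc 1 N then
        w n * (Real.sqrt Real.pi * R (Real.log n / Λ) + K / Λ * ntG) else 0) +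
      R 0 * Λ * (w n * Real.exp (-(Real.log n) ^ 2 / 8)) := by
    intro n
    have h1 : ∫ u in (0 : ℝ)..Λ, R (u / Λ) * (w n * Real.exp (-(u - Real.log n) ^ 2)) =
        w n * ∫ u in (0 : ℝ)..Λ, R (u / Λ) * Real.exp (-(u - Real.log n) ^ 2) := by
      rw [← intervalIntegral.integral_const_mul]
      exact intervalIntegral.integral_congr fun u _ => by ring
    rw [h1]
    have hB : 0 ≤ R 0 * Λ * (w n * Real.exp (-(Real.log n) ^ 2 / 8)) :=
      mul_nonneg (mul_nonneg hR0 hΛ0.le) (mul_nonneg (hw0 n) (Real.exp_pos _).le)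
    split_ifs with hn
    · have h2 := mul_le_mul_of_nonneg_left (t5_In_bound hR K hK hlip Λ (Real.log n) hΛ0) (hw0 n)
      linarith
    · rcases Nat.eq_zero_or_pos n with rfl | hn0
      · have : w 0 = 0 := by simp [hw]
        rw [this]; simp
      · have hnN : N < n := by
          by_contra hc
          exact hn (Finset.mem_Icc.2 ⟨hn0, not_lt.1 hc⟩)
        have h3 : Real.exp (2 * Λ) < n := Nat.lt_of_floor_lt hnN
        have h4 : 2 * Λ ≤ Real.log n := by
          rw [Real.le_log_iff_exp_le (by exact_mod_cast hn0)]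
          exact h3.le
        have h2 := mul_le_mul_of_nonneg_left (t5_In_tail hR Λ (Real.log n) hΛ0 h4) (hw0 n)
        rw [zero_add]
        calc _ ≤ _ := h2
          _ = _ := by ring
  have hA : HasSum (fun n : ℕ => if n ∈ Finset.Icc 1 N then
        w n * (Real.sqrt Real.pi * R (Real.log n / Λ) + K / Λ * ntG) else 0)
      (∑ n ∈ Finset.Icc 1 N, w n * (Real.sqrt Real.pi * R (Real.log n / Λ) + K / Λ * ntG)) := by
    have h : HasSum (fun n : ℕ => if n ∈ Finset.Icc 1 N then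
        w n * (Real.sqrt Real.pi * R (Real.log n / Λ) + K / Λ * ntG) else 0)
        (∑ n ∈ Finset.Icc 1 N, if n ∈ Finset.Icc 1 N then
        w n * (Real.sqrt Real.pi * R (Real.log n / Λ) + K / Λ * ntG) else 0) :=
      hasSum_sum_of_ne_finset_zero (fun n hn => if_neg hn)
    rw [Finset.sum_congr rfl (fun n hn => if_pos hn)] at h
    exact h
  have hB : HasSum (fun n : ℕ => R 0 * Λ * (w n * Real.exp (-(Real.log n) ^ 2 / 8)))
      (R 0 * Λ * C2) := hsm.hasSum.mul_left _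
  have hle := hasSum_le hterm hsum (hA.add hB)
  refine hle.trans ?_
  -- main term
  have hsplit : ∑ n ∈ Finset.Icc 1 N, w n * (Real.sqrt Real.pi * R (Real.log n / Λ) +
      K / Λ * ntG) = Real.sqrt Real.pi * ∑ n ∈ Finset.Icc 1 N, w n * R (Real.log n / Λ) +
      K / Λ * ntG * ∑ n ∈ Finset.Icc 1 N, w n := by
    rw [Finset.mul_sum, Finset.mul_sum, ← Finset.sum_add_distrib]
    exact Finset.sum_congr rfl fun n _ => by ring
  have habel := nt_abel_bound w (fun s => R (s / Λ)) 8 (by norm_num)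
    (fun x hx y hy hxy => hR.anti (Set.mem_Ici.2 (div_nonneg hx hΛ0.le))
      (Set.mem_Ici.2 (div_nonneg hy hΛ0.le)) (div_le_div_of_nonneg_right hxy hΛ0.le))
    ((t5_cont hR).comp (continuous_id.div_const Λ)) (fun x => hR.nonneg _)
    (fun M hM => lam_sq_sum_nat M hM) N hN
  simp only [zero_div] at habel
  have hint := t5_int_bound hR Λ hΛ0 8 N hN hNlog (by norm_num)
  have hS : ∑ n ∈ Finset.Icc 1 N, w n ≤ 26 * Λ ^ 2 := by
    have h1 := lam_sq_sum_nat N hN
    have h2 : 0 ≤ Real.log N := Real.log_nonneg (by exact_mod_cast hN)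
    have h3 : (Real.log N) ^ 2 ≤ (2 * Λ) ^ 2 := pow_le_pow_left₀ h2 hNlog 2
    simp only [hw]
    nlinarith
  have hKL : K / Λ * ntG * ∑ n ∈ Finset.Icc 1 N, w n ≤ 26 * K * ntG * Λ := by
    calc K / Λ * ntG * ∑ n ∈ Finset.Icc 1 N, w n ≤ K / Λ * ntG * (26 * Λ ^ 2) :=
          mul_le_mul_of_nonneg_left hS (by positivity)
      _ = 26 * K * ntG * Λ := by field_simp
  have hmain : Real.sqrt Real.pi * ∑ n ∈ Finset.Icc 1 N, w n * R (Real.log n / Λ) ≤
      Real.sqrt Real.pi * (8 * R 0 + (Λ ^ 2 * (∫ α in (0 : ℝ)..1, α * R α) + 8 * Λ * R 0)) :=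
    mul_le_mul_of_nonneg_left (by linarith) hpi0
  rw [hsplit]
  have h8 : Real.sqrt Real.pi * (8 * R 0) ≤ Real.sqrt Real.pi * (8 * R 0) * Λ :=
    le_mul_of_one_le_right (by positivity) hΛ
  nlinarith
end H627SI
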